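import Mathlib

namespace Pool.Agent.H.MP_78c6b8_an

open Set Filter Topology

lemma chain (K : ℕ → Set ℝ) (hK : ∀ j, IsClosed (K j)) (w : ℕ → ℝ) (hw : ∀ j, 0 ≤ w j) (φ : ℝ → ℂ)
    (u : ℝ) (J : Finset ℕ) : ∀ v, u ≤ v → (∀ x ∈ Icc u v, ∃ j ∈ J, x ∈ K j) →
    (∀ j ∈ J, ∀ x ∈ K j ∩ Icc u v, ∀ y ∈ K j ∩ Icc u v, ‖φ x - φ y‖ ≤ w j) →
    ‖φ v - φ u‖ ≤ ∑ j ∈ J, w j := by
  induction J using Finset.strongInduction with
  | H J ih =>
    intro v huv hc h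
    obtain ⟨j, hj, hv⟩ := hc v ⟨huv, le_rfl⟩
    obtain ⟨m, hm, hm'⟩ := (isCompact_Icc.inter_left (hK j)).exists_isLeast ⟨v, hv, huv, le_rfl⟩
    have h1 := h j hj v ⟨hv, huv, le_rfl⟩ m hm
    rw [← Finset.add_sum_erase _ _ hj]
    refine (norm_sub_le_norm_sub_add_norm_sub _ (φ m) _).trans (add_le_add h1 ?_)
    rcases hm.2.1.eq_or_lt with e | e
    · simpa [e] using Finset.sum_nonneg fun i _ => hw i
    refine ih _ (Finset.erase_ssubset hj) m e.le (fun x hx => ?_) fun i hi x hx y hy =>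
      h i (Finset.mem_of_mem_erase hi) x ⟨hx.1, hx.2.1, hx.2.2.trans hm.2.2⟩ y
        ⟨hy.1, hy.2.1, hy.2.2.trans hm.2.2⟩
    rw [← closure_Ico e.ne] at hx
    have : closure (Ico u m) ⊆ ⋃ i ∈ J.erase j, K i := by
      refine closure_minimal (fun y hy => ?_) (isClosed_biUnion_finset fun i _ => hK i)
      have hy' : y ∈ Icc u v := ⟨hy.1, hy.2.le.trans hm.2.2⟩
      obtain ⟨i, hi, hi'⟩ := hc y hy'
      refine mem_biUnion (Finset.mem_erase.2 ⟨?_, hi⟩) hi'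
      rintro rfl
      exact hy.2.not_ge (hm' ⟨hi', hy'⟩)
    simpa using this hx

lemma part {a b ρ : ℝ} (hab : a ≤ b) (hρ : 0 < ρ) : ∃ (N : ℕ) (p : ℕ → ℝ), Monotone p ∧ p 0 = a ∧
    p N = b ∧ (∀ i, p i ∈ Icc a b) ∧ (∀ i, p (i + 1) - p i < ρ) ∧
    ∀ s ∈ Icc a b, ∃ j < N, s ∈ Icc (p j) (p (j + 1)) := by
  obtain ⟨N, hN⟩ := exists_nat_ge ((b - a) / (ρ / 2))
  rw [div_le_iff₀ (by positivity)] at hN
  have h0 : min (a + ((0 : ℕ) : ℝ) * (ρ / 2)) b = a := by simp [hab]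
  have h1 : min (a + ((N + 1 : ℕ) : ℝ) * (ρ / 2)) b = b := min_eq_right (by push_cast; linarith)
  refine ⟨N + 1, fun i => min (a + i * (ρ / 2)) b, fun i j h => by dsimp only; gcongr, h0, h1,
    fun i => ⟨le_min (le_add_of_nonneg_right (by positivity)) hab, min_le_right _ _⟩,
    fun i => ?_, fun s hs => ?_⟩
  · push_cast
    rcases le_total (a + i * (ρ / 2)) b with h | h
    · rw [min_eq_left h]
      linarith [min_le_left (a + (i + 1) * (ρ / 2)) b]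
    · rw [min_eq_right h]
      linarith [min_le_right (a + (i + 1) * (ρ / 2)) b]
  · by_contra hn
    push Not at hn
    have : ∀ j ≤ N, min (a + ((j + 1 : ℕ) : ℝ) * (ρ / 2)) b < s := by
      intro j hj
      induction j with
      | zero => exact not_le.1 fun h => hn 0 (by omega) ⟨h0.trans_le hs.1, h⟩
      | succ j ih => exact not_le.1 fun h => hn (j + 1) (by omega) ⟨(ih (by omega)).le, h⟩
    exact (this N le_rfl).not_ge (h1.ge.trans' hs.2)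

lemma unif {γ : ℝ → ℂ} {c d : ℝ} (hγ : ContinuousOn γ (Icc c d)) {ε : ℝ} (hε : 0 < ε) :
    ∃ δ > 0, ∀ x ∈ Icc c d, ∀ y ∈ Icc c d, |x - y| < δ → ‖γ x - γ y‖ < ε := by
  simpa [dist_eq_norm] using
    Metric.uniformContinuousOn_iff.1 (isCompact_Icc.uniformContinuousOn_of_continuous hγ) ε hε

lemma inv_unif {γ : ℝ → ℂ} {c d : ℝ} (hγ : ContinuousOn γ (Icc c d)) (hi : InjOn γ (Icc c d))
    {η : ℝ} (hη : 0 < η) :
    ∃ δ > 0, ∀ x ∈ Icc c d, ∀ y ∈ Icc c d, ‖γ x - γ y‖ < δ → |x - y| < η := by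
  have hS : IsCompact ((Icc c d ×ˢ Icc c d) ∩ {p : ℝ × ℝ | η ≤ |p.1 - p.2|}) :=
    (isCompact_Icc.prod isCompact_Icc).inter_right (isClosed_le continuous_const (by fun_prop))
  obtain ⟨δ, hδ, h⟩ := hS.exists_forall_le' (f := fun p : ℝ × ℝ => ‖γ p.1 - γ p.2‖) (a := 0)
    (ContinuousOn.norm (.sub (hγ.comp continuousOn_fst fun p hp => hp.1.1)
      (hγ.comp continuousOn_snd fun p hp => hp.1.2))) fun p hp => by
      refine norm_pos_iff.2 (sub_ne_zero.2 fun e => ?_)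
      have := hp.2
      simp only [mem_ofPred_eq, hi hp.1.1 hp.1.2 e, sub_self, abs_zero] at this
      linarith
  exact ⟨δ, hδ, fun x hx y hy hxy => not_le.1 fun h' => hxy.not_ge (h (x, y) ⟨⟨hx, hy⟩, h'⟩)⟩

lemma key {Γ γ : ℝ → ℂ} {a b c d : ℝ} (hΓ : ContinuousOn Γ (Icc a b))
    (hV : BoundedVariationOn Γ (Icc a b)) (hγ : ContinuousOn γ (Icc c d)) (hi : InjOn γ (Icc c d))
    (hs : γ '' Icc c d ⊆ Γ '' Icc a b) (hab : a ≤ b) {n : ℕ} {t : ℕ → ℝ}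
    (ht : ∀ i j, i ≤ j → j ≤ n → t i ≤ t j) (ht' : ∀ i ≤ n, t i ∈ Icc c d) (φ : ℕ → ℂ → ℂ)
    (hφ : ∀ k, ContinuousOn (φ k) (Γ '' Icc a b)) {ε ρ : ℝ} (hε : 0 ≤ ε) (hρ : 0 < ρ)
    (h : ∀ k < n, ∀ s ∈ Icc a b, ∀ s' ∈ Icc a b, s ≤ s' → s' - s < ρ →
      Γ s ∈ γ '' Icc (t k) (t (k + 1)) →
      ‖φ k (Γ s') - φ k (Γ s)‖ ≤ ε * (eVariationOn Γ (Icc s s')).toReal) :
    ∑ k ∈ Finset.range n, ‖φ k (γ (t (k + 1))) - φ k (γ (t k))‖ ≤
      ε * (eVariationOn Γ (Icc a b)).toReal := by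
  classical
  have lim : Tendsto (fun η => ∑ k ∈ Finset.range n,
      ‖φ k (γ (t (k + 1))) - φ k (γ (min (t k + η) (t (k + 1))))‖) (𝓝[>] 0)
      (𝓝 (∑ k ∈ Finset.range n, ‖φ k (γ (t (k + 1))) - φ k (γ (t k))‖)) := by
    refine tendsto_finsetSum _ fun k hk => (tendsto_const_nhds.sub ?_).norm
    have hk := Finset.mem_range.1 hk
    have h1 := ((hφ k).comp hγ fun x hx => hs (mem_image_of_mem _ hx)) (t k) (ht' k hk.le)
    refine h1.tendsto.comp (tendsto_nhdsWithin_iff.2 ⟨tendsto_nhdsWithin_of_tendsto_nhds ?_, ?_⟩)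
    · have : Continuous fun η => min (t k + η) (t (k + 1)) := by fun_prop
      simpa [ht k (k + 1) (by omega) hk] using this.tendsto 0
    · filter_upwards [self_mem_nhdsWithin] with η hη
      exact ⟨le_min (by linarith [(ht' k hk.le).1, mem_Ioi.1 hη]) (ht' _ hk).1,
        (min_le_right _ _).trans (ht' _ hk).2⟩
  refine le_of_tendsto lim (eventually_nhdsWithin_of_forall fun η hη => ?_)
  have hη : 0 < η := hη
  obtain ⟨δ, hδ, h1⟩ := inv_unif hγ hi hη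
  obtain ⟨ρ', hρ', h2⟩ := unif hΓ hδ
  obtain ⟨N, p, hp, p0, pN, pm, pd, pc⟩ := part hab (lt_min hρ hρ')
  have sub (j) : Icc (p j) (p (j + 1)) ⊆ Icc a b := Icc_subset_Icc (pm _).1 (pm _).2
  let K : ℕ → Set ℝ := fun j => Icc c d ∩ γ ⁻¹' (Γ '' Icc (p j) (p (j + 1)))
  let w : ℕ → ℝ := fun j => ε * (eVariationOn Γ (Icc (p j) (p (j + 1)))).toReal
  have hw (j) : 0 ≤ w j := by positivity
  let J : ℕ → Finset ℕ := fun k => (Finset.range N).filter fun j =>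
    (K j ∩ Icc (t k + η) (t (k + 1))).Nonempty
  have hJ (k) (hk : k ∈ Finset.range n) :
      ‖φ k (γ (t (k + 1))) - φ k (γ (min (t k + η) (t (k + 1))))‖ ≤ ∑ j ∈ J k, w j := by
    have hk := Finset.mem_range.1 hk
    rcases le_total (t (k + 1)) (t k + η) with e | e
    · simpa [e] using Finset.sum_nonneg fun i _ => hw i
    rw [min_eq_left e]
    refine chain K (fun j => hγ.preimage_isClosed_of_isClosed isClosed_Icc
      (isCompact_Icc.image_of_continuousOn (hΓ.mono (sub j))).isClosed) w hw (fun x => φ k (γ x))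
      _ _ _ e (fun x hx => ?_) ?_
    · have hx' : x ∈ Icc c d := ⟨by linarith [(ht' k hk.le).1, hx.1], hx.2.trans (ht' _ hk).2⟩
      obtain ⟨s, hs1, hs2⟩ := hs (mem_image_of_mem _ hx')
      obtain ⟨j, hj, hj'⟩ := pc s hs1
      exact ⟨j, Finset.mem_filter.2 ⟨Finset.mem_range.2 hj, x, ⟨hx', s, hj', hs2⟩, hx⟩, hx', s, hj', hs2⟩
    · have aux (j x y s s') (hx : x ∈ Icc (t k + η) (t (k + 1))) (e1 : Γ s = γ x) (e2 : Γ s' = γ y)
          (m1 : s ∈ Icc (p j) (p (j + 1))) (m2 : s' ∈ Icc (p j) (p (j + 1))) (hss : s ≤ s') :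
          ‖φ k (γ y) - φ k (γ x)‖ ≤ w j := by
        rw [← e1, ← e2]
        refine (h k hk s (sub j m1) s' (sub j m2) hss
          (by linarith [pd j, min_le_left ρ ρ', m1.1, m2.2])
          ⟨x, ⟨by linarith [hx.1], hx.2⟩, e1.symm⟩).trans ?_
        exact mul_le_mul_of_nonneg_left (ENNReal.toReal_mono (hV.mono (sub j))
          (eVariationOn.mono _ (Icc_subset_Icc m1.1 m2.2))) hε
      rintro j - x ⟨⟨-, s, m1, e1⟩, hx⟩ y ⟨⟨-, s', m2, e2⟩, hy⟩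
      rcases le_total s s' with e | e
      · exact (norm_sub_rev _ _).trans_le (aux j x y s s' hx e1 e2 m1 m2 e)
      · exact aux j y x s' s hy e2 e1 m2 m1 e
  have hd : ∀ k < n, ∀ l < n, k < l → Disjoint (J k) (J l) := by
    intro k _ l hl hkl
    refine Finset.disjoint_left.2 fun j h3 h4 => ?_
    obtain ⟨-, x, ⟨hx, s, m1, e1⟩, hx'⟩ := Finset.mem_filter.1 h3
    obtain ⟨-, y, ⟨hy, s', m2, e2⟩, hy'⟩ := Finset.mem_filter.1 h4
    have := h1 x hx y hy (by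
      rw [← e1, ← e2]
      refine h2 s (sub j m1) s' (sub j m2) (abs_lt.2 ⟨?_, ?_⟩) <;>
        linarith [pd j, min_le_right ρ ρ', m1.1, m1.2, m2.1, m2.2])
    linarith [(abs_lt.1 this).1, hx'.2, hy'.1, ht (k + 1) l hkl hl.le]
  refine (Finset.sum_le_sum hJ).trans ?_
  rw [← Finset.sum_biUnion]
  · refine (Finset.sum_le_sum_of_subset_of_nonneg (t := Finset.range N)
      (Finset.biUnion_subset.2 fun k _ => Finset.filter_subset _ _) fun j _ _ => hw j).trans_eq ?_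
    rw [← Finset.mul_sum, ← ENNReal.toReal_sum fun j _ => hV.mono (sub j), eVariationOn.sum' Γ hp,
      p0, pN]
  · intro k hk l hl hkl
    have hk := Finset.mem_range.1 hk
    have hl := Finset.mem_range.1 hl
    rcases lt_or_gt_of_ne hkl with e | e
    · exact hd k hk l hl e
    · exact (hd l hl k hk e).symm

end Pool.Agent.H.MP_78c6b8_an
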